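import Mathlib
import Pool.Agent.Helper351.RE.B4

set_option autoImplicit false

namespace Pool.Agent.Results.MP_a2eab4_al.PolyRightOrderable

/-- The smallest class of groups that contains the trivial groups and that contains `G` as soon as it
contains `G ⧸ A` for some normal subgroup `A` of `G` which is abelian, finite or right-orderable
(carries a linear order invariant under right multiplication). -/
inductive PolyRO : ∀ (G : Type) [Group G], Prop
  | triv (G : Type) [Group G] (h : ∀ x : G, x = 1) : PolyRO G
  | ext (G : Type) [Group G] (A : Subgroup G) [A.Normal]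
      (hA : (∀ x ∈ A, ∀ y ∈ A, x * y = y * x) ∨ Finite A ∨
        ∃ _ : LinearOrder A, ∀ a b c : A, a ≤ b → a * c ≤ b * c)
      (hQ : PolyRO (G ⧸ A)) : PolyRO G

theorem to_lib (G : Type) [Group G] (h : PolyRO G) : Pool.Agent.Helper351.RE.PolyRO G := by
  induction h with
  | triv G h => exact Pool.Agent.Helper351.RE.PolyRO.triv G h
  | ext G A hA hQ ih => exact Pool.Agent.Helper351.RE.PolyRO.ext G A hA ih

/-- Let `G` be a group in the class `PolyRO`. Then the set of bounded right Engel elements of `G` (the
elements `a` such that for some `n` the `n`-fold left-normed commutator `[a, g, …, g]` is trivial for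
every `g` in `G`) is a subgroup of `G`. -/
theorem result (G : Type) [Group G] (h : PolyRO G) :
    ∃ H : Subgroup G,
      (H : Set G) = {a : G | ∃ n : ℕ, ∀ g : G, (fun x : G => x⁻¹ * g⁻¹ * x * g)^[n] a = 1} := by
  obtain ⟨H, hH⟩ := Pool.Agent.Helper351.RE.right_main G
    (Pool.Agent.Helper351.RE.bc_poly G (to_lib G h))
  refine ⟨H, ?_⟩
  ext g
  exact hH g

end Pool.Agent.Results.MP_a2eab4_al.PolyRightOrderable
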